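import Mathlib

/-!
# Sums of exactly two elements: the combinatorial core

Limits of two-colourings of the integers along an idempotent ultrafilter, and the extension lemma
for finite sets with monochromatic sums.
-/

set_option autoImplicit false

namespace Pool.Agent.H190R3.HT

open Filter

section lim

variable {α : Type*}

/-- the limit colour -/
noncomputable def lm (p : Ultrafilter α) (D : α → Bool) : Bool :=
  @decide (∀ᶠ y in (p : Filter α), D y = true) (Classical.dec _)

theorem lm_spec (p : Ultrafilter α) (D : α → Bool) : ∀ᶠ y in (p : Filter α), D y = lm p D := by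
  classical
  by_cases h : ∀ᶠ y in (p : Filter α), D y = true
  · have : lm p D = true := by unfold lm; exact decide_eq_true h
    rw [this]; exact h
  · have h1 : lm p D = false := by unfold lm; exact decide_eq_false h
    rw [h1]
    have h2 := (Ultrafilter.eventually_not (f := p) (p := fun y => D y = true)).2 h
    exact h2.mono fun y hy => by simpa using hy

theorem lm_eq (p : Ultrafilter α) (D : α → Bool) (b : Bool)
    (h : ∀ᶠ y in (p : Filter α), D y = b) : lm p D = b := by
  obtain ⟨y, h1, h2⟩ := (h.and (lm_spec p D)).exists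
  rw [← h2, h1]

end lim

attribute [local instance] Ultrafilter.add Ultrafilter.addSemigroup

/-- an idempotent ultrafilter on the integers which contains all the final segments -/
theorem exists_idem : ∃ e : Ultrafilter ℤ, (∀ n : ℤ, ∀ᶠ y in (e : Filter ℤ), n ≤ y) ∧
    ∀ D : ℤ → Bool, ∀ᶠ y in (e : Filter ℤ), ∀ᶠ y' in (e : Filter ℤ), D (y + y') = lm e D := by
  have h : ∃ e ∈ {p : Ultrafilter ℤ | ∀ n : ℤ, ∀ᶠ y in (p : Filter ℤ), n ≤ y}, e + e = e := by
    apply exists_idempotent_in_compact_add_subsemigroup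
    · exact fun r => Ultrafilter.continuous_add_left r
    · refine ⟨Ultrafilter.of atTop, fun n => ?_⟩
      exact (Ultrafilter.of_le atTop) (eventually_ge_atTop n)
    · apply IsClosed.isCompact
      have : {p : Ultrafilter ℤ | ∀ n : ℤ, ∀ᶠ y in (p : Filter ℤ), n ≤ y} =
          ⋂ n : ℤ, {p : Ultrafilter ℤ | {y | n ≤ y} ∈ p} := by
        ext p
        simp only [Set.mem_iInter]
        rfl
      rw [this]
      exact isClosed_iInter fun n => ultrafilter_isClosed_basic _
    · intro p hp q hq n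
      rw [Ultrafilter.eventually_add]
      refine Filter.Eventually.of_forall fun x => ?_
      exact (hq (n - x)).mono fun y hy => by linarith
  obtain ⟨e, he, hee⟩ := h
  refine ⟨e, he, fun D => ?_⟩
  have h1 := lm_spec e D
  rw [← Ultrafilter.eventually_add e e (fun z => D z = lm e D), hee]
  exact h1

/-- the extension lemma -/
theorem extend (D : ℤ → Bool) (i : Bool) (p : Ultrafilter ℤ)
    (hp : ∀ n : ℤ, ∀ᶠ y in (p : Filter ℤ), n ≤ y) (Q : Set ℤ) (hQ : ∀ᶠ y in (p : Filter ℤ), y ∈ Q)
    (F : Finset ℕ) (n : ℕ) (hF : ∀ x ∈ F, x < n)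
    (hFF : ∀ x ∈ F, ∀ y ∈ F, x < y → D ((x : ℤ) + y) = i)
    (hFp : ∀ x ∈ F, ∀ᶠ y in (p : Filter ℤ), D ((x : ℤ) + y) = i)
    (hpp : ∀ᶠ x in (p : Filter ℤ), ∀ᶠ y in (p : Filter ℤ), D (x + y) = i) :
    ∃ H : Set ℕ, H.Infinite ∧ (∀ k < n, k ∈ H ↔ k ∈ F) ∧
      (∀ x ∈ H, ∀ y ∈ H, x < y → D ((x : ℤ) + y) = i) ∧ ∀ x ∈ H, x ∈ F ∨ (x : ℤ) ∈ Q := by
  classical
  obtain ⟨f, hf1, hf2⟩ := exists_seq_of_forall_finset_exists
    (P := fun y : ℤ => (n : ℤ) ≤ y ∧ y ∈ Q ∧ (∀ x ∈ F, D ((x : ℤ) + y) = i) ∧
      ∀ᶠ y' in (p : Filter ℤ), D (y + y') = i)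
    (r := fun x y => x < y ∧ D (x + y) = i) (by
      intro s hs
      have h1 : ∀ᶠ y in (p : Filter ℤ), ∀ x ∈ F, D ((x : ℤ) + y) = i := by
        rw [Filter.eventually_all_finset]; exact hFp
      have h2 : ∀ᶠ y in (p : Filter ℤ), ∀ x ∈ s, x < y ∧ D (x + y) = i := by
        rw [Filter.eventually_all_finset]
        intro x hx
        exact ((hp (x + 1)).mono fun y hy => by linarith).and (hs x hx).2.2.2
      obtain ⟨y, h3, h4, h5, h6, h7⟩ := ((hp n).and (hQ.and (h1.and (hpp.and h2)))).exists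
      exact ⟨y, ⟨h3, h4, h5, h6⟩, h7⟩)
  have hmono : StrictMono f := fun a b hab => (hf2 a b hab).1
  have hpos : ∀ j, (n : ℤ) ≤ f j := fun j => (hf1 j).1
  have hcast : ∀ j, (((f j).toNat : ℕ) : ℤ) = f j := fun j =>
    Int.toNat_of_nonneg (le_trans (Int.natCast_nonneg n) (hpos j))
  refine ⟨{k : ℕ | k ∈ F ∨ ∃ j, f j = (k : ℤ)}, ?_, ?_, ?_, ?_⟩
  · refine Set.infinite_of_injective_forall_mem (f := fun j => (f j).toNat) ?_ ?_
    · intro a b hab
      have hab' : (f a).toNat = (f b).toNat := hab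
      apply hmono.injective
      rw [← hcast a, ← hcast b, hab']
    · intro j
      exact Or.inr ⟨j, (hcast j).symm⟩
  · intro k hk
    constructor
    · rintro (h | ⟨j, hj⟩)
      · exact h
      · exfalso
        have := hpos j
        rw [hj] at this
        have : n ≤ k := by exact_mod_cast this
        omega
    · exact fun h => Or.inl h
  · rintro x (hx | ⟨a, ha⟩) y (hy | ⟨b, hb⟩) hxy
    · exact hFF x hx y hy hxy
    · have := (hf1 b).2.2.1 x hx
      rw [hb] at this
      exact this
    · exfalso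
      have h1 := hpos a
      rw [ha] at h1
      have h2 : n ≤ x := by exact_mod_cast h1
      have h3 := hF y hy
      omega
    · have hab : a < b := by
        rw [← hmono.lt_iff_lt, ha, hb]
        exact_mod_cast hxy
      have := (hf2 a b hab).2
      rw [ha, hb] at this
      exact this
  · rintro x (hx | ⟨a, ha⟩)
    · exact Or.inl hx
    · right
      have := (hf1 a).2.1
      rw [ha] at this
      exact this

/-- infinite homogeneous subsets -/
theorem ramsey (D : ℤ → Bool) (Q : Set ℕ) (hQ : Q.Infinite) : ∃ (H : Set ℕ) (i : Bool),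
    H ⊆ Q ∧ H.Infinite ∧ ∀ x ∈ H, ∀ y ∈ H, x < y → D ((x : ℤ) + y) = i := by
  classical
  have : (cofinite ⊓ 𝓟 Q : Filter ℕ).NeBot := by
    rw [Filter.inf_principal_neBot_iff]
    intro U hU
    by_contra hcon
    rw [Set.not_nonempty_iff_eq_empty] at hcon
    apply hQ
    have : Q ⊆ Uᶜ := fun x hx hxU => by
      have : x ∈ U ∩ Q := ⟨hxU, hx⟩
      rw [hcon] at this
      exact this
    exact Set.Finite.subset (Filter.mem_cofinite.1 hU) this
  set q : Ultrafilter ℕ := Ultrafilter.of (cofinite ⊓ 𝓟 Q) with hq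
  have hle : (q : Filter ℕ) ≤ cofinite ⊓ 𝓟 Q := Ultrafilter.of_le _
  set p : Ultrafilter ℤ := q.map (fun k : ℕ => (k : ℤ)) with hp
  have hp1 : ∀ n : ℤ, ∀ᶠ y in (p : Filter ℤ), n ≤ y := by
    intro n
    have : ∀ᶠ k : ℕ in (q : Filter ℕ), n ≤ (k : ℤ) := by
      apply hle
      apply Filter.mem_inf_of_left
      rw [Filter.mem_cofinite]
      refine (Set.finite_lt_nat n.toNat).subset ?_
      intro k hk
      simp only [Set.mem_compl_iff, Set.mem_ofPred_eq, not_le] at hk ⊢
      omega
    exact this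
  have hp2 : ∀ᶠ y in (p : Filter ℤ), y ∈ (fun k : ℕ => (k : ℤ)) '' Q := by
    have : ∀ᶠ k : ℕ in (q : Filter ℕ), (k : ℤ) ∈ (fun k : ℕ => (k : ℤ)) '' Q := by
      apply hle
      apply Filter.mem_inf_of_right
      rw [Filter.mem_principal]
      intro k hk
      exact ⟨k, hk, rfl⟩
    exact this
  obtain ⟨H, h1, -, h3, h4⟩ := extend D (lm p fun x => lm p fun y => D (x + y)) p hp1 _ hp2 ∅ 0
    (by simp) (by simp) (by simp) (by
      refine (lm_spec p fun x => lm p fun y => D (x + y)).mono fun x hx => ?_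
      rw [← hx]
      exact lm_spec p fun y => D (x + y))
  refine ⟨H, _, ?_, h1, h3⟩
  intro x hx
  rcases h4 x hx with h | ⟨k, hk, hk'⟩
  · simp at h
  · have hk'' : (k : ℤ) = (x : ℤ) := hk'
    have : k = x := by exact_mod_cast hk''
    rw [← this]; exact hk

/-- the pure combinatorics of the two-coloured phase -/
theorem two_colours (D G : ℤ → Bool) (H₀ H₁ : Set ℕ) (hH₀ : H₀.Infinite) (hH₁ : H₁.Infinite)
    (h0 : ∀ x ∈ H₀, ∀ y ∈ H₀, x < y → D ((x : ℤ) + y) = false)
    (h1 : ∀ x ∈ H₁, ∀ y ∈ H₁, x < y → D ((x : ℤ) + y) = true)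
    (star : ∀ (H : Set ℕ) (i : Bool), H.Infinite →
      (∀ x ∈ H, ∀ y ∈ H, x < y → D ((x : ℤ) + y) = i) → ∀ w : ℤ, G (2 * w) = i →
      ∃ x ∈ H, G (w + x) ≠ i) : False := by
  classical
  -- both colours have infinite homogeneous sets
  have hex : ∀ i : Bool, ∃ H : Set ℕ, H.Infinite ∧
      ∀ x ∈ H, ∀ y ∈ H, x < y → D ((x : ℤ) + y) = i := by
    intro i
    cases i
    · exact ⟨H₀, hH₀, h0⟩
    · exact ⟨H₁, hH₁, h1⟩
  -- both colours occur on the even numbers
  have step1 : ∀ i : Bool, ∃ w : ℤ, G (2 * w) = i := by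
    intro i
    by_contra hcon
    push Not at hcon
    have hall : ∀ w : ℤ, G (2 * w) = !i := fun w => by
      have := hcon w
      cases i <;> cases h : G (2 * w) <;> simp_all
    obtain ⟨H, hH, hH'⟩ := hex (!i)
    have hsub : ∃ (H' : Set ℕ) (u : ℤ), H'.Infinite ∧ H' ⊆ H ∧ ∀ x ∈ H', ∃ v : ℤ, u + x = 2 * v := by
      have : H = {x ∈ H | x % 2 = 0} ∪ {x ∈ H | x % 2 = 1} := by
        ext x
        constructor
        · intro hx
          rcases Nat.mod_two_eq_zero_or_one x with h | h
          · exact Or.inl ⟨hx, h⟩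
          · exact Or.inr ⟨hx, h⟩
        · rintro (h | h)
          · exact h.1
          · exact h.1
      rw [this, Set.infinite_union] at hH
      rcases hH with h | h
      · exact ⟨_, 0, h, fun x hx => hx.1, fun x hx => ⟨(x / 2 : ℕ), by have := hx.2; omega⟩⟩
      · exact ⟨_, 1, h, fun x hx => hx.1, fun x hx => ⟨(x / 2 : ℕ) + 1, by have := hx.2; omega⟩⟩
    obtain ⟨H', u, hi, hs, hu⟩ := hsub
    obtain ⟨x, hx, hx'⟩ := star H' (!i) hi (fun x hx y hy => hH' x (hs hx) y (hs hy)) u (hall u)
    obtain ⟨v, hv⟩ := hu x hx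
    rw [hv] at hx'
    exact hx' (hall v)
  -- adjacent numbers
  have step2 : ∃ w : ℤ, G (2 * w) ≠ G (2 * (w + 1)) := by
    by_contra hcon
    push Not at hcon
    have hc : ∀ w : ℤ, G (2 * w) = G (2 * 0) := by
      intro w
      induction w using Int.induction_on with
      | zero => rfl
      | succ k ih => rw [← hcon]; exact ih
      | pred k ih =>
        rw [← ih, hcon]
        congr 1; ring
    obtain ⟨w, hw⟩ := step1 true
    obtain ⟨w', hw'⟩ := step1 false
    rw [hc] at hw hw'
    rw [hw] at hw'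
    exact Bool.noConfusion hw'
  -- two indices at distance one
  have step3 : ∃ w₀ w₁ : ℤ, G (2 * w₀) = false ∧ G (2 * w₁) = true ∧
      (w₁ = w₀ + 1 ∨ w₀ = w₁ + 1) := by
    obtain ⟨w, hw⟩ := step2
    cases h : G (2 * w)
    · refine ⟨w, w + 1, h, ?_, Or.inl rfl⟩
      cases h' : G (2 * (w + 1))
      · rw [h, h'] at hw; exact absurd rfl hw
      · rfl
    · refine ⟨w + 1, w, ?_, h, Or.inr rfl⟩
      cases h' : G (2 * (w + 1))
      · rfl
      · rw [h, h'] at hw; exact absurd rfl hw
  obtain ⟨w₀, w₁, hw₀, hw₁, hadj⟩ := step3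
  -- the common set is finite
  have hfin : {x : ℕ | G (w₀ + x) = false ∧ G (w₁ + x) = true}.Finite := by
    by_contra hinf
    obtain ⟨H, i, hs, hi, hh⟩ := ramsey D _ hinf
    cases i
    · obtain ⟨x, hx, hx'⟩ := star H false hi hh w₀ hw₀
      exact hx' (hs hx).1
    · obtain ⟨x, hx, hx'⟩ := star H true hi hh w₁ hw₁
      exact hx' (hs hx).2
  obtain ⟨x₀, hx₀⟩ := hfin.bddAbove
  -- tails
  have tail : ∀ (j : Bool) (v : ℤ), ¬ ∀ z : ℤ, v ≤ z → G z = j := by
    intro j v hv
    obtain ⟨w, hw⟩ : ∃ w : ℤ, G (2 * w) = j := step1 j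
    obtain ⟨H, hH, hH'⟩ := hex j
    have h2 : (H \ {x : ℕ | x < (v - w).toNat}).Infinite := hH.sdiff (Set.finite_lt_nat _)
    obtain ⟨x, hx, hx'⟩ := star _ j h2 (fun x hx y hy => hH' x hx.1 y hy.1) w hw
    apply hx'
    apply hv
    have := hx.2
    simp only [Set.mem_ofPred_eq, not_lt] at this
    omega
  have hlarge : ∀ x : ℕ, x₀ < x → G (w₀ + x) = false → G (w₁ + x) = false := by
    intro x hx h
    cases h' : G (w₁ + x)
    · rfl
    · exfalso
      have := hx₀ (show x ∈ {x : ℕ | G (w₀ + x) = false ∧ G (w₁ + x) = true} from ⟨h, h'⟩)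
      omega
  rcases hadj with rfl | rfl
  · -- false propagates upwards
    have hup : ∀ z : ℤ, w₀ + x₀ + 1 ≤ z → G z = false → G (z + 1) = false := by
      intro z hz h
      have := hlarge (z - w₀).toNat (by omega)
      have hz' : ((z - w₀).toNat : ℤ) = z - w₀ := Int.toNat_of_nonneg (by omega)
      rw [hz'] at this
      have h3 := this (by rw [← h]; congr 1; ring)
      rw [← h3]; congr 1; ring
    by_cases hsome : ∃ v : ℤ, w₀ + x₀ + 1 ≤ v ∧ G v = false
    · obtain ⟨v, hv, hv'⟩ := hsome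
      apply tail false v
      intro z hz
      induction z, hz using Int.leInduction with
      | base => exact hv'
      | succ z hz ih => exact hup z (by omega) ih
    · push Not at hsome
      apply tail true (w₀ + x₀ + 1)
      intro z hz
      have := hsome z hz
      cases h : G z
      · exact absurd h this
      · rfl
  · -- true propagates upwards
    have hup : ∀ z : ℤ, w₁ + x₀ + 1 ≤ z → G z = true → G (z + 1) = true := by
      intro z hz h
      have := hlarge (z - w₁).toNat (by omega)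
      have hz' : ((z - w₁).toNat : ℤ) = z - w₁ := Int.toNat_of_nonneg (by omega)
      rw [hz'] at this
      cases h4 : G (z + 1)
      · exfalso
        have h3 := this (by rw [← h4]; congr 1; ring)
        have h5 : G z = false := by rw [← h3]; congr 1; ring
        rw [h] at h5
        exact Bool.noConfusion h5
      · rfl
    by_cases hsome : ∃ v : ℤ, w₁ + x₀ + 1 ≤ v ∧ G v = true
    · obtain ⟨v, hv, hv'⟩ := hsome
      apply tail true v
      intro z hz
      induction z, hz using Int.leInduction with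
      | base => exact hv'
      | succ z hz ih => exact hup z (by omega) ih
    · push Not at hsome
      apply tail false (w₁ + x₀ + 1)
      intro z hz
      have := hsome z hz
      cases h : G z
      · rfl
      · exact absurd h this

end Pool.Agent.H190R3.HT
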