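import Pool.Agent.H190R3.HT.Core

/-!
# Sums of exactly two elements: no continuous reduction from the pigeonhole principle with three
colours
-/

set_option autoImplicit false

namespace Pool.Agent.H190R3.HT

open Filter

/-- `H` is infinite and its sums of two distinct elements have the colour `i` -/
def Good (d : ℕ → Bool) (H : Set ℕ) (i : Bool) : Prop :=
  H.Infinite ∧ ∀ x ∈ H, ∀ y ∈ H, x < y → d (x + y) = i

/-- the colouring extended to the integers -/
def DD (d : ℕ → Bool) (z : ℤ) : Bool := d z.toNat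

theorem DD_add (d : ℕ → Bool) (x y : ℕ) : DD d ((x : ℤ) + y) = d (x + y) := by
  unfold DD
  congr 1

theorem good_iff (d : ℕ → Bool) (H : Set ℕ) (i : Bool) :
    Good d H i ↔ H.Infinite ∧ ∀ x ∈ H, ∀ y ∈ H, x < y → DD d ((x : ℤ) + y) = i := by
  unfold Good
  simp only [DD_add]

/-- the limit colouring -/
noncomputable def GG (e : Ultrafilter ℤ) (d : ℕ → Bool) (z : ℤ) : Bool :=
  lm e fun y => DD d (z + y)

section idem

variable (e : Ultrafilter ℤ) (he : ∀ n : ℤ, ∀ᶠ y in (e : Filter ℤ), n ≤ y)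
  (hee : ∀ D : ℤ → Bool, ∀ᶠ y in (e : Filter ℤ), ∀ᶠ y' in (e : Filter ℤ), D (y + y') = lm e D)

include he hee

/-- extension of a finite set in the direction `w + e` -/
theorem ext_w (d : ℕ → Bool) (i : Bool) (w : ℤ) (F : Finset ℕ) (n : ℕ) (hF : ∀ x ∈ F, x < n)
    (hFF : ∀ x ∈ F, ∀ y ∈ F, x < y → d (x + y) = i)
    (hFp : ∀ x ∈ F, GG e d (w + x) = i) (hw : GG e d (2 * w) = i) :
    ∃ H : Set ℕ, Good d H i ∧ ∀ k < n, k ∈ H ↔ k ∈ F := by
  obtain ⟨H, h1, h2, h3, -⟩ := extend (DD d) i (e.map (fun y => w + y)) (by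
      intro n
      have := he (n - w)
      exact this.mono fun y hy => by
        show n ≤ w + y
        linarith) Set.univ (Filter.Eventually.of_forall fun _ => trivial) F n hF
    (fun x hx y hy hxy => by rw [DD_add]; exact hFF x hx y hy hxy)
    (by
      intro x hx
      have h := lm_spec e fun y => DD d (w + x + y)
      have h' : lm e (fun y => DD d (w + x + y)) = i := hFp x hx
      rw [h'] at h
      refine h.mono fun y hy => ?_
      show DD d (x + (w + y)) = i
      rw [← hy]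
      congr 1; ring)
    (by
      have h := hee fun y => DD d (2 * w + y)
      have h' : lm e (fun y => DD d (2 * w + y)) = i := hw
      rw [h'] at h
      refine h.mono fun x hx => ?_
      refine hx.mono fun y hy => ?_
      show DD d (w + x + (w + y)) = i
      rw [← hy]
      congr 1; ring)
  exact ⟨H, (good_iff d H i).2 ⟨h1, h3⟩, h2⟩

/-- every colour of the limit colouring on the even numbers is the colour of a solution -/
theorem good_of_GG (d : ℕ → Bool) (w : ℤ) : ∃ H : Set ℕ, Good d H (GG e d (2 * w)) := by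
  obtain ⟨H, h, -⟩ := ext_w e he hee d _ w ∅ 0 (by simp) (by simp) (by simp) rfl
  exact ⟨H, h⟩

end idem

section game

/-- `f` is eventually constant -/
def EC (f : ℕ → Fin 3) : Prop := ∃ (a : Fin 3) (n : ℕ), ∀ k, n ≤ k → f k = a

variable (Φ : (ℕ → Fin 3) → ℕ → Bool) (Ψ : (ℕ → Fin 3) → Set ℕ → Fin 3)

/-- there are no continuous `Φ`, `Ψ` such that `Ψ f H` is a colour which `f` takes infinitely often
whenever the sums of two elements of the infinite set `H` have one colour for `Φ f` -/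
theorem no_reduction
    (hΦ : ∀ f, EC f → ∀ n, ∃ m, ∀ f', EC f' → (∀ k < m, f' k = f k) →
      ∀ k < n, Φ f' k = Φ f k)
    (hΨ : ∀ f, EC f → ∀ H i, Good (Φ f) H i → ∃ n, ∀ f', EC f' → ∀ H' i',
      (∀ k < n, f' k = f k) → (∀ k < n, k ∈ H' ↔ k ∈ H) → Good (Φ f') H' i' → Ψ f' H' = Ψ f H)
    (hout : ∀ f, EC f → ∀ H i, Good (Φ f) H i → {k | f k = Ψ f H}.Infinite) : False := by
  classical
  obtain ⟨e, he, hee⟩ := exists_idem
  -- the key property: committed sets cannot be extended
  have key : ∀ f, EC f → ∀ H i, Good (Φ f) H i → ∃ N, ∀ f', EC f' → (∀ k < N, f' k = f k) →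
      ∀ w : ℤ, (∀ x ∈ H, x < N → GG e (Φ f') (w + x) = i) → GG e (Φ f') (2 * w) = i →
      {k | f' k = Ψ f H}.Infinite := by
    intro f hfc H i hH
    obtain ⟨n, hn⟩ := hΨ f hfc H i hH
    obtain ⟨m, hm⟩ := hΦ f hfc (2 * n)
    refine ⟨max n m, fun f' hfc' hf' w hw hw' => ?_⟩
    set F : Finset ℕ := (Finset.range n).filter (· ∈ H) with hFdef
    have hFmem : ∀ x, x ∈ F ↔ x < n ∧ x ∈ H := fun x => by simp [F]
    obtain ⟨H', h1, h2⟩ := ext_w e he hee (Φ f') i w F n (fun x hx => ((hFmem x).1 hx).1) (by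
        intro x hx y hy hxy
        have hx' := (hFmem x).1 hx
        have hy' := (hFmem y).1 hy
        rw [hm f' hfc' (fun k hk => hf' k (lt_max_of_lt_right hk)) (x + y) (by omega)]
        exact hH.2 x hx'.2 y hy'.2 hxy) (by
        intro x hx
        have hx' := (hFmem x).1 hx
        exact hw x hx'.2 (lt_max_of_lt_left hx'.1)) hw'
    have h3 := hn f' hfc' H' i (fun k hk => hf' k (lt_max_of_lt_left hk)) (by
      intro k hk
      rw [h2 k hk, hFmem]
      exact ⟨fun h => h.2, fun h => ⟨hk, h⟩⟩) h1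
    rw [← h3]
    exact hout f' hfc' H' i h1
  -- in a constant phase the output is the constant
  have hconst : ∀ f H i (a : Fin 3) (n : ℕ), (∀ k, n ≤ k → f k = a) → Good (Φ f) H i →
      Ψ f H = a := by
    intro f H i a n hf hH
    by_contra hne
    apply hout f ⟨a, n, hf⟩ H i hH
    refine (Set.finite_lt_nat n).subset ?_
    intro k hk
    simp only [Set.mem_ofPred_eq] at hk ⊢
    by_contra hkn
    apply hne
    rw [← hk]
    exact hf k (by omega)
  have hfin : ∀ (f : ℕ → Fin 3) (a b : Fin 3) (n : ℕ), a ≠ b → (∀ k, n ≤ k → f k = b) →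
      ¬ {k | f k = a}.Infinite := by
    intro f a b n hab hf hinf
    apply hinf
    refine (Set.finite_lt_nat n).subset ?_
    intro k hk
    simp only [Set.mem_ofPred_eq] at hk ⊢
    by_contra hkn
    apply hab
    rw [← hk]
    exact hf k (by omega)
  -- no phase has solutions of both colours
  have mono : ∀ (f : ℕ → Fin 3) (a : Fin 3) (n : ℕ), (∀ k, n ≤ k → f k = a) →
      ∃ i, ∀ H j, Good (Φ f) H j → j = i := by
    intro f a n hf
    by_contra hcon
    push Not at hcon
    obtain ⟨H₀, j₀, hg₀, hj₀⟩ := hcon true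
    obtain ⟨H₁, j₁, hg₁, hj₁⟩ := hcon false
    have e0 : j₀ = false := by
      cases j₀ with
      | false => rfl
      | true => exact absurd rfl hj₀
    have e1 : j₁ = true := by
      cases j₁ with
      | true => rfl
      | false => exact absurd rfl hj₁
    subst e0 e1
    obtain ⟨c, hc⟩ : ∃ c : Fin 3, c ≠ a := ⟨a + 1, by fin_cases a <;> decide⟩
    let g : ℕ → ℕ → Fin 3 := fun m k => if k < m then f k else c
    let U : Ultrafilter ℕ := hyperfilter ℕ
    let G : ℤ → Bool := fun z => lm U fun m => GG e (Φ (g m)) z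
    have hUge : ∀ N : ℕ, ∀ᶠ m in (U : Filter ℕ), N ≤ m := by
      intro N
      apply Filter.hyperfilter_le_cofinite
      rw [Filter.mem_cofinite]
      refine (Set.finite_lt_nat N).subset ?_
      intro k hk
      simp only [Set.mem_compl_iff, Set.mem_ofPred_eq, not_le] at hk ⊢
      exact hk
    refine two_colours (DD (Φ f)) G H₀ H₁ hg₀.1 hg₁.1 ((good_iff _ _ _).1 hg₀).2
      ((good_iff _ _ _).1 hg₁).2 ?_
    intro H i hinf hH w hw
    by_contra hcon2
    push Not at hcon2
    have hgood : Good (Φ f) H i := (good_iff _ _ _).2 ⟨hinf, hH⟩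
    obtain ⟨N, hN⟩ := key f ⟨a, n, hf⟩ H i hgood
    have hA : Ψ f H = a := hconst f H i a n hf hgood
    have h1 : ∀ᶠ m in (U : Filter ℕ), ∀ x ∈ (Finset.range N).filter (· ∈ H),
        GG e (Φ (g m)) (w + x) = i := by
      rw [Filter.eventually_all_finset]
      intro x hx
      have h2 := lm_spec U fun m => GG e (Φ (g m)) (w + x)
      have h3 : lm U (fun m => GG e (Φ (g m)) (w + x)) = i := hcon2 x (by
        simp only [Finset.mem_filter] at hx; exact hx.2)
      rw [h3] at h2
      exact h2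
    have h4 : ∀ᶠ m in (U : Filter ℕ), GG e (Φ (g m)) (2 * w) = i := by
      have h2 := lm_spec U fun m => GG e (Φ (g m)) (2 * w)
      have h3 : lm U (fun m => GG e (Φ (g m)) (2 * w)) = i := hw
      rw [h3] at h2
      exact h2
    obtain ⟨m, h5, h6, h7⟩ := (h1.and (h4.and (hUge N))).exists
    have h8 := hN (g m) ⟨c, m, fun k hk => by
      show (if k < m then f k else c) = c
      rw [if_neg (by omega)]⟩ (fun k hk => by
      show (if k < m then f k else c) = f k
      rw [if_pos (by omega)]) w (fun x hx hxN => h5 x (by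
        simp only [Finset.mem_filter, Finset.mem_range]; exact ⟨hxN, hx⟩)) h6
    rw [hA] at h8
    refine hfin (g m) a c m hc.symm (fun k hk => ?_) h8
    show (if k < m then f k else c) = c
    rw [if_neg (by omega)]
  -- solutions in the even numbers
  have heven : ∀ f, ∃ (H : Set ℕ) (i : Bool), Good (Φ f) H i ∧ ∀ x ∈ H, ∃ u : ℤ, (x : ℤ) = 2 * u := by
    intro f
    have hinf : {x : ℕ | x % 2 = 0}.Infinite := by
      refine Set.infinite_of_injective_forall_mem (f := fun k : ℕ => 2 * k) ?_ ?_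
      · intro a b hab
        have : 2 * a = 2 * b := hab
        omega
      · intro k
        show (2 * k) % 2 = 0
        omega
    obtain ⟨H, i, h1, h2, h3⟩ := ramsey (DD (Φ f)) _ hinf
    refine ⟨H, i, (good_iff _ _ _).2 ⟨h2, h3⟩, fun x hx => ⟨(x / 2 : ℕ), ?_⟩⟩
    have := h1 hx
    simp only [Set.mem_ofPred_eq] at this
    omega
  -- in a phase with the single colour `i` the limit colouring is `i` on the even numbers
  have hGe : ∀ f i, (∀ H j, Good (Φ f) H j → j = i) → ∀ w : ℤ, GG e (Φ f) (2 * w) = i := by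
    intro f i hi w
    obtain ⟨H, hH⟩ := good_of_GG e he hee (Φ f) w
    exact hi H _ hH
  -- extension in a phase with the same colour
  have hext : ∀ f, EC f → ∀ H i, Good (Φ f) H i → (∀ x ∈ H, ∃ u : ℤ, (x : ℤ) = 2 * u) →
      ∃ N, ∀ f', EC f' → (∀ k < N, f' k = f k) → (∀ H j, Good (Φ f') H j → j = i) →
        {k | f' k = Ψ f H}.Infinite := by
    intro f hfc H i hH hev
    obtain ⟨N, hN⟩ := key f hfc H i hH
    refine ⟨N, fun f' hfc' hf' hi => hN f' hfc' hf' 0 (fun x hx _ => ?_) (hGe f' i hi 0)⟩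
    obtain ⟨u, hu⟩ := hev x hx
    rw [zero_add, hu]
    exact hGe f' i hi u
  -- the three phases
  let f0 : ℕ → Fin 3 := fun _ => 0
  obtain ⟨i0, hi0⟩ := mono f0 0 0 (fun k _ => rfl)
  obtain ⟨H0, i0', hg0, hev0⟩ := heven f0
  have hi0' := hi0 H0 i0' hg0
  subst hi0'
  have ho0 := hconst f0 H0 i0' 0 0 (fun k _ => rfl) hg0
  obtain ⟨N0, hN0⟩ := hext f0 ⟨0, 0, fun k _ => rfl⟩ H0 i0' hg0 hev0
  let f1 : ℕ → Fin 3 := fun k => if k < N0 then 0 else 1
  have hf1c : ∀ k, N0 ≤ k → f1 k = 1 := fun k hk => by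
    show (if k < N0 then (0 : Fin 3) else 1) = 1
    rw [if_neg (by omega)]
  obtain ⟨i1, hi1⟩ := mono f1 1 N0 hf1c
  obtain ⟨H1, i1', hg1, hev1⟩ := heven f1
  have hi1' := hi1 H1 i1' hg1
  subst hi1'
  have ho1 := hconst f1 H1 i1' 1 N0 hf1c hg1
  obtain ⟨N1, hN1⟩ := hext f1 ⟨1, N0, hf1c⟩ H1 i1' hg1 hev1
  let f2 : ℕ → Fin 3 := fun k => if k < max N0 N1 then f1 k else 2
  have hf2c : ∀ k, max N0 N1 ≤ k → f2 k = 2 := fun k hk => by
    show (if k < max N0 N1 then f1 k else 2) = 2
    rw [if_neg (by omega)]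
  obtain ⟨i2, hi2⟩ := mono f2 2 (max N0 N1) hf2c
  have a1 : i1' ≠ i0' := by
    intro h
    have := hN0 f1 ⟨1, N0, hf1c⟩ (fun k hk => by
      show (if k < N0 then (0 : Fin 3) else 1) = 0
      rw [if_pos hk]) (by rw [← h]; exact hi1)
    rw [ho0] at this
    exact hfin f1 0 1 N0 (by decide) hf1c this
  have a2 : i2 ≠ i0' := by
    intro h
    have := hN0 f2 ⟨2, _, hf2c⟩ (fun k hk => by
      show (if k < max N0 N1 then f1 k else 2) = 0
      rw [if_pos (lt_max_of_lt_left hk)]
      show (if k < N0 then (0 : Fin 3) else 1) = 0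
      rw [if_pos hk]) (by rw [← h]; exact hi2)
    rw [ho0] at this
    exact hfin f2 0 2 _ (by decide) hf2c this
  have a3 : i2 ≠ i1' := by
    intro h
    have := hN1 f2 ⟨2, _, hf2c⟩ (fun k hk => by
      show (if k < max N0 N1 then f1 k else 2) = f1 k
      rw [if_pos (lt_max_of_lt_right hk)]) (by rw [← h]; exact hi2)
    rw [ho1] at this
    exact hfin f2 1 2 _ (by decide) hf2c this
  cases i0' <;> cases i1' <;> cases i2 <;>
    first | exact a1 rfl | exact a2 rfl | exact a3 rfl

end game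

end Pool.Agent.H190R3.HT
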