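import Pool.Agent.H190R3.HT.Game
import Pool.Agent.H190R3.WeiWords

/-!
# Sums of exactly two elements: functionals given by word functions
-/

set_option autoImplicit false

namespace Pool.Agent.H190R3.HT

open Pool.Agent.H190R3.Wei

theorem init_congr {x x' : ℕ → ℕ} {m : ℕ} (h : ∀ k < m, x' k = x k) : init x' m = init x m := by
  unfold init
  apply List.map_congr_left
  intro k hk
  exact h k (List.mem_range.1 hk)

/-- functionals given by word functions are continuous -/
theorem maps_cont {φ : List ℕ → List ℕ} {x y : ℕ → ℕ} (h : Maps φ x y) (n : ℕ) :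
    ∃ m, ∀ x' y', (∀ k < m, x' k = x k) → Maps φ x' y' → ∀ k < n, y' k = y k := by
  obtain ⟨m, hm⟩ := h.2 n
  refine ⟨m, fun x' y' hx hy k hk => ?_⟩
  have h1 := h.1 m
  have h2 := hy.1 m
  rw [init_congr hx] at h2
  rw [h1] at h2
  simp only [length_init] at h2
  have h3 := init_getD y (φ (init x m)).length k 0 (by omega)
  have h4 := init_getD y' (φ (init x m)).length k 0 (by omega)
  rw [← h3, ← h4, h2]

/-- the characteristic function -/
noncomputable def chi (H : Set ℕ) (k : ℕ) : ℕ := @ite _ (k ∈ H) (Classical.dec _) 1 0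

theorem chi_eq_one {H : Set ℕ} {k : ℕ} : chi H k = 1 ↔ k ∈ H := by
  unfold chi
  by_cases h : k ∈ H
  · simp [h]
  · simp [h]

theorem chi_lt (H : Set ℕ) (k : ℕ) : chi H k < 2 := by
  unfold chi
  by_cases h : k ∈ H
  · simp [h]
  · simp [h]

theorem chi_congr {H H' : Set ℕ} {k : ℕ} (h : k ∈ H' ↔ k ∈ H) : chi H' k = chi H k := by
  unfold chi
  by_cases h1 : k ∈ H
  · simp [h1, h.2 h1]
  · have : k ∉ H' := fun h2 => h1 (h.1 h2)
    simp [h1, this]

/-- the interface between word functions and the combinatorial theorem -/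
theorem no_machine (c : (ℕ → Fin 3) → (ℕ → ℕ))
    (hc : ∀ f n, ∃ M, ∀ f', (∀ k < M, f' k = f k) → ∀ k < n, c f' k = c f k)
    (φ ψ : List ℕ → List ℕ)
    (hred : ∀ f, EC f → ∃ y : ℕ → ℕ, (∀ n, y n < 2) ∧ Maps φ (c f) y ∧
      ∀ z : ℕ → ℕ, (∀ n, z n < 2) → {n | z n = 1}.Infinite →
        (∃ i, ∀ a b, a < b → z a = 1 → z b = 1 → y (a + b) = i) →
        ∃ w, Maps ψ (pair (c f) z) w ∧ {n | w n = 1}.Infinite ∧
          ∀ a b, w a = 1 → w b = 1 → f a = f b) : False := by
  classical
  choose! Y hY1 hY2 hY3 using hred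
  let Φ : (ℕ → Fin 3) → ℕ → Bool := fun f k => decide (Y f k = 1)
  -- the solution given by a good set
  have hW : ∀ f, EC f → ∀ H i, Good (Φ f) H i → ∃ w, Maps ψ (pair (c f) (chi H)) w ∧
      {n | w n = 1}.Infinite ∧ ∀ a b, w a = 1 → w b = 1 → f a = f b := by
    intro f hf H i hH
    apply hY3 f hf (chi H) (chi_lt H)
    · have : {n | chi H n = 1} = H := by ext k; exact chi_eq_one
      rw [this]; exact hH.1
    · refine ⟨if i then 1 else 0, fun a b hab ha hb => ?_⟩
      have h1 : decide (Y f (a + b) = 1) = i :=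
        hH.2 a (chi_eq_one.1 ha) b (chi_eq_one.1 hb) hab
      have h2 := hY1 f hf (a + b)
      cases i
      · have h3 : ¬ Y f (a + b) = 1 := by simpa using h1
        simp only [Bool.false_eq_true, if_false]
        omega
      · have h3 : Y f (a + b) = 1 := by simpa using h1
        simp [h3]
  let W : (ℕ → Fin 3) → Set ℕ → ℕ → ℕ := fun f H =>
    if h : ∃ w, Maps ψ (pair (c f) (chi H)) w ∧ {n | w n = 1}.Infinite ∧
      ∀ a b, w a = 1 → w b = 1 → f a = f b then h.choose else 0
  have hWs : ∀ f, EC f → ∀ H i, Good (Φ f) H i → Maps ψ (pair (c f) (chi H)) (W f H) ∧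
      {n | W f H n = 1}.Infinite ∧ ∀ a b, W f H a = 1 → W f H b = 1 → f a = f b := by
    intro f hf H i hH
    have h := hW f hf H i hH
    have : W f H = h.choose := dif_pos h
    rw [this]
    exact h.choose_spec
  let Ψ : (ℕ → Fin 3) → Set ℕ → Fin 3 := fun f H => f (sInf {n | W f H n = 1})
  refine no_reduction Φ Ψ ?_ ?_ ?_
  · intro f hf n
    obtain ⟨m, hm⟩ := maps_cont (hY2 f hf) n
    obtain ⟨M, hM⟩ := hc f m
    refine ⟨M, fun f' hf' hff k hk => ?_⟩
    show decide (Y f' k = 1) = decide (Y f k = 1)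
    rw [hm (c f') (Y f') (hM f' hff) (hY2 f' hf') k hk]
  · intro f hf H i hH
    obtain ⟨h1, h2, h3⟩ := hWs f hf H i hH
    have hne : {n | W f H n = 1}.Nonempty := h2.nonempty
    have hk0 : W f H (sInf {n | W f H n = 1}) = 1 := Nat.sInf_mem hne
    obtain ⟨m, hm⟩ := maps_cont h1 (sInf {n | W f H n = 1} + 1)
    obtain ⟨M, hM⟩ := hc f m
    refine ⟨max M (max m (sInf {n | W f H n = 1} + 1)), fun f' hf' H' i' hff hHH hH' => ?_⟩
    obtain ⟨h1', h2', h3'⟩ := hWs f' hf' H' i' hH'
    have hagree : ∀ k < sInf {n | W f H n = 1} + 1, W f' H' k = W f H k := by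
      apply hm _ _ _ h1'
      intro k hk
      unfold pair
      split_ifs
      · exact hM f' (fun j hj => hff j (lt_max_of_lt_left hj)) (k / 2) (by omega)
      · apply chi_congr
        exact hHH (k / 2) (lt_max_of_lt_right (lt_max_of_lt_left (by omega)))
    have heq : sInf {n | W f' H' n = 1} = sInf {n | W f H n = 1} := by
      apply le_antisymm
      · apply Nat.sInf_le
        show W f' H' _ = 1
        rw [hagree _ (Nat.lt_succ_self _)]
        exact hk0
      · by_contra hlt
        push Not at hlt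
        have hne' : {n | W f' H' n = 1}.Nonempty := h2'.nonempty
        have h4 : W f' H' (sInf {n | W f' H' n = 1}) = 1 := Nat.sInf_mem hne'
        rw [hagree _ (by omega)] at h4
        have := Nat.sInf_le (s := {n | W f H n = 1}) h4
        omega
    show f' (sInf {n | W f' H' n = 1}) = f (sInf {n | W f H n = 1})
    rw [heq]
    exact hff _ (lt_max_of_lt_right (lt_max_of_lt_right (Nat.lt_succ_self _)))
  · intro f hf H i hH
    obtain ⟨h1, h2, h3⟩ := hWs f hf H i hH
    have hk0 : W f H (sInf {n | W f H n = 1}) = 1 := Nat.sInf_mem h2.nonempty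
    refine h2.mono ?_
    intro k hk
    exact h3 k _ hk hk0

end Pool.Agent.H190R3.HT
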